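import Mathlib
import Pool.Agent.MPf836ec.Bip

set_option autoImplicit false

namespace Pool.Agent.Results.MP_f836ec_co.EveryCubicGraph

universe u

/-- `D` is a dominating set of `G`: every vertex outside `D` has a neighbour in `D`. -/
def IsDominating {V : Type u} (G : SimpleGraph V) (D : Set V) : Prop :=
  ∀ v : V, v ∉ D → ∃ w ∈ D, G.Adj v w

/-- `S` is a total dominating set of `G`: every vertex, also one of `S`, has a neighbour in `S`. -/
def IsTotalDominating {V : Type u} (G : SimpleGraph V) (S : Set V) : Prop :=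
  ∀ v : V, ∃ w ∈ S, G.Adj v w

/-- The connected case, on `Fin n`. -/
theorem fin_case (n : ℕ) (G : SimpleGraph (Fin n)) (hconn : G.Connected)
    (h3 : ∀ v, (G.neighborSet v).ncard = 3) :
    ∃ S : Set (Fin n), IsTotalDominating G S ∧ IsDominating G Sᶜ ∧ 2 * S.ncard ≤ n := by
  classical
  have hreg : G.IsRegularOfDegree 3 := by
    intro v
    rw [← SimpleGraph.card_neighborSet_eq_degree, ← Nat.card_eq_fintype_card,
      Nat.card_coe_set_eq]
    exact h3 v
  have hgood : ∃ S, Pool.Agent.MPf836ec.Good G S := by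
    by_cases hb : ∃ X : Finset (Fin n), ∀ u w, G.Adj u w → (u ∈ X ↔ w ∉ X)
    · obtain ⟨X, hX⟩ := hb
      exact Pool.Agent.MPf836ec.bip hreg hconn X hX
    · exact Pool.Agent.MPf836ec.nonbip hreg hconn hb
  obtain ⟨S₀, hS₀⟩ := hgood
  obtain ⟨S, hS1, hS2, D, hD1, hD2⟩ := Pool.Agent.MPf836ec.of_good hreg S₀ hS₀
  refine ⟨(S : Set (Fin n)), ?_, ?_, ?_⟩
  · intro v
    obtain ⟨w, hw, hvw⟩ := hS1 v
    exact ⟨w, Finset.mem_coe.2 hw, hvw⟩
  · intro v hv
    have hvS : v ∈ S := by
      by_contra hcon
      exact hv (fun h => hcon (Finset.mem_coe.1 h))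
    have hvD : v ∉ D := fun h => (Finset.disjoint_left.1 hD1 h) hvS
    rcases hD2 v with h | ⟨w, hw, hvw⟩
    · exact absurd h hvD
    · exact ⟨w, fun h => (Finset.disjoint_left.1 hD1 hw) (Finset.mem_coe.1 h), hvw⟩
  · rw [Set.ncard_coe_finset]
    simpa using hS2

/-- The connected case, in every universe. -/
theorem conn_case {V : Type u} [Finite V] (G : SimpleGraph V) (hconn : G.Connected)
    (h3 : ∀ v, (G.neighborSet v).ncard = 3) :
    ∃ S : Set V, IsTotalDominating G S ∧ IsDominating G Sᶜ ∧ 2 * S.ncard ≤ Nat.card V := by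
  have e : V ≃ Fin (Nat.card V) := Finite.equivFin V
  have iso : G.comap e.symm ≃g G := SimpleGraph.Iso.comap e.symm G
  obtain ⟨S, hS1, hS2, hS3⟩ := fin_case (Nat.card V) (G.comap e.symm)
    ((SimpleGraph.Iso.comap e.symm G).connected_iff.2 hconn) (by
      intro v
      have himg : e.symm '' ((G.comap e.symm).neighborSet v) = G.neighborSet (e.symm v) := by
        ext w
        constructor
        · rintro ⟨x, hx, rfl⟩
          exact hx
        · intro hw
          refine ⟨e w, ?_, e.symm_apply_apply w⟩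
          change G.Adj (e.symm v) (e.symm (e w))
          rw [e.symm_apply_apply]
          exact hw
      rw [← h3 (e.symm v), ← himg, Set.ncard_image_of_injective _ e.symm.injective])
  refine ⟨e.symm '' S, ?_, ?_, ?_⟩
  · intro v
    obtain ⟨w, hw, hvw⟩ := hS1 (e v)
    refine ⟨e.symm w, ⟨w, hw, rfl⟩, ?_⟩
    have h : G.Adj (e.symm (e v)) (e.symm w) := hvw
    rwa [e.symm_apply_apply] at h
  · intro v hv
    have hv' : e v ∉ Sᶜ := by
      intro h
      apply hv
      rintro ⟨x, hx, rfl⟩
      rw [e.apply_symm_apply] at h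
      exact h hx
    obtain ⟨w, hw, hvw⟩ := hS2 (e v) hv'
    refine ⟨e.symm w, ?_, ?_⟩
    · rintro ⟨x, hx, hxw⟩
      rw [e.symm.injective hxw] at hx
      exact hw hx
    · have h : G.Adj (e.symm (e v)) (e.symm w) := hvw
      rwa [e.symm_apply_apply] at h
  · rw [Set.ncard_image_of_injective _ e.symm.injective]
    exact hS3

/-- **Full positive answer to Q1.** Every finite cubic graph `G` on `n` vertices, connected or not,
has a total dominating set `S` with at most `n / 2` vertices whose complement is a dominating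
set of `G`. -/
theorem result {V : Type u} [Finite V] (G : SimpleGraph V)
    (hcubic : ∀ v : V, (G.neighborSet v).ncard = 3) :
    ∃ S : Set V, IsTotalDominating G S ∧ IsDominating G Sᶜ ∧ 2 * S.ncard ≤ Nat.card V := by
  classical
  -- neighbours stay in the component
  have hnb : ∀ (c : G.ConnectedComponent) (v w : V), v ∈ c.supp → G.Adj v w → w ∈ c.supp := by
    intro c v w hv hvw
    rw [SimpleGraph.ConnectedComponent.mem_supp_iff] at hv ⊢
    rw [← hv]
    exact (SimpleGraph.ConnectedComponent.sound hvw.reachable).symm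
  have key : ∀ c : G.ConnectedComponent, ∃ S : Set c.supp,
      IsTotalDominating (G.induce c.supp) S ∧ IsDominating (G.induce c.supp) Sᶜ ∧
        2 * S.ncard ≤ Nat.card c.supp := by
    intro c
    refine conn_case (G.induce c.supp) c.connected_toSimpleGraph ?_
    intro v
    have himg : Subtype.val '' ((G.induce c.supp).neighborSet v) = G.neighborSet v.1 := by
      ext w
      constructor
      · rintro ⟨x, hx, rfl⟩
        exact hx
      · intro hw
        exact ⟨⟨w, hnb c v.1 w v.2 hw⟩, hw, rfl⟩
    rw [← hcubic v.1, ← himg, Set.ncard_image_of_injective _ Subtype.val_injective]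
  choose f hf1 hf2 hf3 using key
  have hmk : ∀ v : V, v ∈ (G.connectedComponentMk v).supp := fun v => rfl
  refine ⟨⋃ c, Subtype.val '' (f c), ?_, ?_, ?_⟩
  · intro v
    obtain ⟨w, hw, hvw⟩ := hf1 (G.connectedComponentMk v) ⟨v, hmk v⟩
    exact ⟨w.1, Set.mem_iUnion.2 ⟨_, w, hw, rfl⟩, hvw⟩
  · intro v hv
    have hv' : (⟨v, hmk v⟩ : (G.connectedComponentMk v).supp) ∉ (f (G.connectedComponentMk v))ᶜ := by
      intro h
      apply hv
      intro hmem
      obtain ⟨c, x, hx, hxv⟩ := Set.mem_iUnion.1 hmem
      have hc : c = G.connectedComponentMk v := by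
        have := x.2
        rw [SimpleGraph.ConnectedComponent.mem_supp_iff, hxv] at this
        exact this.symm
      subst hc
      have hxe : x = ⟨v, hmk v⟩ := Subtype.ext hxv
      rw [hxe] at hx
      exact h hx
    obtain ⟨w, hw, hvw⟩ := hf2 (G.connectedComponentMk v) ⟨v, hmk v⟩ hv'
    refine ⟨w.1, ?_, hvw⟩
    intro hmem
    obtain ⟨c, x, hx, hxw⟩ := Set.mem_iUnion.1 hmem
    have hc : c = G.connectedComponentMk v := by
      have h1 := x.2
      have h2 := w.2
      rw [SimpleGraph.ConnectedComponent.mem_supp_iff] at h1 h2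
      rw [hxw] at h1
      exact h1.symm.trans h2
    subst hc
    have hxe : x = w := Subtype.ext hxw
    rw [hxe] at hx
    exact hw hx
  · have : Fintype G.ConnectedComponent := Fintype.ofFinite _
    have h1 : (⋃ c, Subtype.val '' (f c)).ncard ≤ ∑ c : G.ConnectedComponent, (f c).ncard := by
      refine (Set.ncard_iUnion_le_of_fintype _).trans (le_of_eq ?_)
      exact Finset.sum_congr rfl fun c _ => Set.ncard_image_of_injective _ Subtype.val_injective
    have h2 : Nat.card V = ∑ c : G.ConnectedComponent, Nat.card c.supp := by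
      have e : (Σ c : G.ConnectedComponent, {v : V // G.connectedComponentMk v = c}) ≃ V :=
        Equiv.sigmaFiberEquiv (fun v => G.connectedComponentMk v)
      rw [← Nat.card_congr e, Nat.card_sigma]
      rfl
    rw [h2]
    calc 2 * (⋃ c, Subtype.val '' (f c)).ncard
        ≤ 2 * ∑ c : G.ConnectedComponent, (f c).ncard := Nat.mul_le_mul_left 2 h1
      _ = ∑ c : G.ConnectedComponent, 2 * (f c).ncard := Finset.mul_sum _ _ _
      _ ≤ ∑ c : G.ConnectedComponent, Nat.card c.supp := Finset.sum_le_sum fun c _ => hf3 c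

end Pool.Agent.Results.MP_f836ec_co.EveryCubicGraph
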